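import Pool.Agent.Helper10.CYC.OddDefs
import Pool.Agent.Helper73.SNC.Roots

/-!
# Assembly of the char 2 part: a set of odd type forces the other one to be a coset

The pieces `ST_*` of `OddDefs` are hypotheses.  `coset_of_odd_type`: no transversal and the
reduction of `B` is not a square: `A` is a coset.  `tr_of_odd`: sets of odd size have a
transversal.
-/

set_option autoImplicit false

namespace Pool.Agent.Helper7.CYC

open Finset Polynomial Pool.Agent.Helper10.CYC Pool.Agent.Helper7.SN
open Pool.Agent.Helper73.SNC (chi IsCos)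

/-! ### The support of the two weights -/

section Weights

lemma card_lt_filter (k s : ℕ) (hs : s ≤ k) :
    (univ.filter (fun i : Fin k => (i : ℕ) < s)).card = s := by
  have h : (univ.filter (fun i : Fin k => (i : ℕ) < s)).map Fin.valEmbedding = range s := by
    ext j
    simp only [Finset.mem_map, Finset.mem_filter, Finset.mem_univ, true_and,
      Fin.valEmbedding_apply, Finset.mem_range]
    constructor
    · rintro ⟨i, hi, rfl⟩
      exact hi
    · intro hj
      exact ⟨⟨j, by omega⟩, hj, rfl⟩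
  rw [← Finset.card_map Fin.valEmbedding, h, card_range]

lemma supp_u1 (k s : ℕ) : supp (u1 k s) = univ.filter (fun i : Fin k => (i : ℕ) < s) := by
  ext i
  simp only [mem_supp, u1, Finset.mem_filter, Finset.mem_univ, true_and]
  split_ifs with h
  · simp [h]
  · simp [h]

lemma sum_u1 (k s : ℕ) (hs : s ≤ k) : ∑ i, u1 k s i = s := by
  have h : ∑ i, u1 k s i = ∑ i : Fin k, if (i : ℕ) < s then 1 else 0 := rfl
  rw [h, ← Finset.card_filter, card_lt_filter k s hs]

lemma supp_u2 (k s jj : ℕ) (z : Fin k) (hj : 2 ≤ jj) :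
    supp (u2 k s jj z) = insert z (univ.filter (fun i : Fin k => (i : ℕ) < s)) := by
  ext i
  simp only [mem_supp, u2, Finset.mem_insert, Finset.mem_filter, Finset.mem_univ, true_and]
  by_cases h : (i : ℕ) < s
  · simp [h]
  · rw [if_neg h]
    by_cases h2 : i = z
    · rw [if_pos h2]
      simp only [h2, true_or, iff_true]
      omega
    · simp [h2, h]

lemma card_supp_u2 (k s jj : ℕ) (z : Fin k) (hz : s ≤ (z : ℕ)) (hj : 2 ≤ jj) :
    (supp (u2 k s jj z)).card = s + 1 := by
  have hzk := z.2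
  rw [supp_u2 k s jj z hj, card_insert_of_notMem, card_lt_filter k s (by omega)]
  simp only [Finset.mem_filter, Finset.mem_univ, true_and]
  omega

lemma sum_u2 (k s jj : ℕ) (z : Fin k) (hz : s ≤ (z : ℕ)) : ∑ i, u2 k s jj z i = s + jj := by
  have hzk := z.2
  have h : ∀ i, u2 k s jj z i = (if (i : ℕ) < s then 1 else 0) + (if i = z then jj else 0) := by
    intro i
    unfold u2
    by_cases h1 : (i : ℕ) < s
    · have h2 : i ≠ z := by
        rintro rfl
        omega
      simp [h1, h2]
    · simp [h1]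
  rw [sum_congr rfl (fun i _ => h i), sum_add_distrib, ← Finset.card_filter,
    card_lt_filter k s (by omega), Finset.sum_ite_eq' univ z]
  simp

end Weights

/-! ### The family of algebraic integers -/

section Family

variable {n : ℕ} [NeZero n]

lemma isIntegral_chi (a : ZMod n) : IsIntegral ℤ (chi a) := by
  refine ⟨X ^ n - 1, ?_, ?_⟩
  · have := monic_X_pow_sub_C (1 : ℤ) (NeZero.ne n)
    simpa using this
  · simp [Pool.Agent.Helper73.SNC.chi_pow_card]

/-- The character value as an algebraic integer. -/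
noncomputable def ichi (a : ZMod n) : integralClosure ℤ ℂ := ⟨chi a, isIntegral_chi a⟩

lemma coe_ichi (a : ZMod n) : ((ichi a : integralClosure ℤ ℂ) : ℂ) = chi a := rfl

lemma ichi_inj : Function.Injective (ichi : ZMod n → integralClosure ℤ ℂ) := by
  intro a b h
  apply Pool.Agent.Helper73.SNC.chi_inj
  rw [← coe_ichi, ← coe_ichi, h]

lemma ichi_pow (a : ZMod n) : (ichi a) ^ n = 1 := by
  apply Subtype.ext
  change (chi a) ^ n = 1
  exact Pool.Agent.Helper73.SNC.chi_pow_card a

lemma map_ichi_ne_zero {κ : Type} [Field κ] (φ : integralClosure ℤ ℂ →+* κ) (a : ZMod n) :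
    φ (ichi a) ≠ 0 := by
  intro h
  have h1 : φ ((ichi a) ^ n) = 1 := by rw [ichi_pow, map_one]
  rw [map_pow, h, zero_pow (NeZero.ne n)] at h1
  exact zero_ne_one h1

end Family

/-! ### T3 for two sets without transversal -/

section Rels

variable {n : ℕ} [NeZero n] {k : ℕ}

lemma W_zero {A B : Finset (ZMod n)} (h : ¬ Tr A B) (a b : Fin k → ZMod n)
    (ha : Function.Injective a) (hb : Function.Injective b) (hA : univ.image a = A)
    (hB : univ.image b = B) (bb : ℕ) (hb0 : 0 < bb) (hbk : bb ≤ k) (u : Fin k → ℕ)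
    (hu : ∑ i, u i = bb) (hne : es (fun i => chi (a i)) bb ≠ 0)
    (he : ∀ i, (supp u).card ≤ i → i < bb → es (fun i => chi (a i)) i = 0)
    (σ : Equiv.Perm (Fin k)) :
    W bb (fun i => ((ichi (b (σ i)) : integralClosure ℤ ℂ) : ℂ)) u = 0 := by
  have hV : ∀ τ : Equiv.Perm (Fin k), (Matrix.vandermonde
      (fun i => ((ichi (b (σ i)) : integralClosure ℤ ℂ) : ℂ) * chi (a (τ i)))).det = 0 := by
    intro τ
    have h1 := Pool.Agent.Helper73.SNC.not_tr_det₂ h a b ha hb hA hB τ σ
    rw [← h1]
    congr 2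
    funext i
    rw [coe_ichi, mul_comm]
  have hy : Function.Injective (fun i => chi (a i)) := Pool.Agent.Helper73.SNC.chi_inj.comp ha
  have h2 := T3 bb hb0 hbk (fun i => ((ichi (b (σ i)) : integralClosure ℤ ℂ) : ℂ))
    (fun i => chi (a i)) hy hV u hu he
  rcases mul_eq_zero.1 h2 with h3 | h3
  · exact absurd h3 hne
  · exact h3

end Rels

/-! ### The dichotomy -/

section Main

variable {n : ℕ} [NeZero n] {k : ℕ}

lemma natDegree_prod_root {κ : Type} [Field κ] (y : Fin k → κ) :
    (∏ i, (X - C (y i))).natDegree = k := by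
  rw [natDegree_prod_of_monic _ _ (fun i _ => monic_X_sub_C (y i))]
  simp

lemma monic_prod_root {κ : Type} [Field κ] (y : Fin k → κ) :
    (∏ i, (X - C (y i))).Monic :=
  monic_prod_of_monic _ _ (fun i _ => monic_X_sub_C (y i))

/-- **T1**: the middle and everything in the range `[P, P + o]` vanishes. -/
theorem es_zero_of_range (hA5 : ST_A5) (hC : ST_C) (hE : ST_E)
    {κ : Type} [Field κ] [CharP κ 2] [IsAlgClosed κ] (φ : integralClosure ℤ ℂ →+* κ)
    (hφ : ∀ (k b : ℕ) (u : Fin k → ℕ)
      (x : Fin k → integralClosure ℤ ℂ) (_ : Function.Injective x)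
      (_ : ∀ σ : Equiv.Perm (Fin k), W b (fun i => ((x (σ i) : integralClosure ℤ ℂ) : ℂ)) u = 0),
        Rel (∏ i, (X - C (φ (x i)))) b u)
    {A B : Finset (ZMod n)} (h : ¬ Tr A B) (a b : Fin k → ZMod n)
    (ha : Function.Injective a) (hb : Function.Injective b) (hA : univ.image a = A)
    (hB : univ.image b = B) (D O : κ[X]) (hD : D.Monic) (hO : O.Monic) (hD0 : D.eval 0 ≠ 0)
    (hO0 : O.eval 0 ≠ 0) (hsq : Squarefree O)
    (hf : ∏ i, (X - C (φ (ichi (b i)))) = D ^ 2 * O) (r : ℕ) (hr0 : 0 < r)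
    (hr1 : D.natDegree ≤ r) (hr2 : r ≤ D.natDegree + O.natDegree) :
    es (fun i => chi (a i)) r = 0 := by
  by_contra hne
  have hk : k = 2 * D.natDegree + O.natDegree := by
    have h1 := natDegree_prod_root (fun i => φ (ichi (b i)))
    rw [hf, Monic.natDegree_mul (hD.pow 2) hO, hD.natDegree_pow] at h1
    omega
  have hrk : r ≤ k := by omega
  have hrel : Rel (∏ i, (X - C (φ (ichi (b i))))) r (u1 k r) := by
    refine hφ k r (u1 k r) (fun i => ichi (b i)) (ichi_inj.comp hb) ?_
    intro σ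
    refine W_zero h a b ha hb hA hB r hr0 hrk (u1 k r) (sum_u1 k r hrk) hne ?_ σ
    intro i hi1 hi2
    rw [supp_u1, card_lt_filter k r hrk] at hi1
    omega
  refine hE κ D O hD hO hD0 hO0 hsq k r hk hr1 hr2 ?_
  intro Γ
  have h2 := hC κ k r hrk _ hrel Γ
  obtain ⟨v, hv0, hv⟩ := hA5 κ k _ (monic_prod_root _) (natDegree_prod_root _) _ h2
  exact ⟨v, hv0, by rw [← hf]; exact hv⟩

/-- No transversal and the reduction of `B` is not a square: `A` is a coset. -/
theorem coset_of_odd_type (hA5 : ST_A5) (hC : ST_C) (hDD : ST_D) (hE : ST_E) (hF : ST_F)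
    {κ : Type} [Field κ] [CharP κ 2] [IsAlgClosed κ] (φ : integralClosure ℤ ℂ →+* κ)
    (hφ : ∀ (k b : ℕ) (u : Fin k → ℕ)
      (x : Fin k → integralClosure ℤ ℂ) (_ : Function.Injective x)
      (_ : ∀ σ : Equiv.Perm (Fin k), W b (fun i => ((x (σ i) : integralClosure ℤ ℂ) : ℂ)) u = 0),
        Rel (∏ i, (X - C (φ (x i)))) b u)
    {A B : Finset (ZMod n)} (h : ¬ Tr A B) (a b : Fin k → ZMod n)
    (ha : Function.Injective a) (hb : Function.Injective b) (hA : univ.image a = A)
    (hB : univ.image b = B) (D O : κ[X]) (hD : D.Monic) (hO : O.Monic) (hD0 : D.eval 0 ≠ 0)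
    (hO0 : O.eval 0 ≠ 0) (hsq : Squarefree O)
    (hf : ∏ i, (X - C (φ (ichi (b i)))) = D ^ 2 * O) (ho : 1 ≤ O.natDegree) :
    IsCos k A := by
  have hk : k = 2 * D.natDegree + O.natDegree := by
    have h1 := natDegree_prod_root (fun i => φ (ichi (b i)))
    rw [hf, Monic.natDegree_mul (hD.pow 2) hO, hD.natDegree_pow] at h1
    omega
  have hrange := es_zero_of_range hA5 hC hE φ hφ h a b ha hb hA hB D O hD hO hD0 hO0 hsq hf
  by_cases hk1 : k ≤ 1
  · have hk1 : k = 1 := by omega
    refine Pool.Agent.Helper73.SNC.isCos_of_es (by omega) A a ha hA ?_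
    intro j hj hj2
    omega
  have hmid : es (fun i => chi (a i)) (k / 2) = 0 := hrange (k / 2) (by omega) (by omega) (by omega)
  rcases Pool.Agent.Helper73.SNC.isCos_or_index (by omega) A a ha hA hmid with hcos | hind
  · exact hcos
  · exfalso
    obtain ⟨m, hm0, hmk, hm1, hm2, hgap⟩ := hind
    have hmP : m < D.natDegree := by
      by_contra hcon
      exact hm1 (hrange m hm0 (by omega) (by omega))
    set P := D.natDegree with hP
    set s := P + O.natDegree - 1 with hs
    set jj := P - m + 1 with hjj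
    have hbb : s + jj = k - m := by omega
    have hrel : ∀ z : Fin k, s ≤ (z : ℕ) →
        Rel (∏ i, (X - C (φ (ichi (b i))))) (s + jj) (u2 k s jj z) := by
      intro z hz
      refine hφ k (s + jj) (u2 k s jj z) (fun i => ichi (b i)) (ichi_inj.comp hb) ?_
      intro σ
      refine W_zero h a b ha hb hA hB (s + jj) (by omega) (by omega) (u2 k s jj z)
        (sum_u2 k s jj z hz) (by rw [hbb]; exact hm2) ?_ σ
      intro i hi1 hi2
      rw [card_supp_u2 k s jj z hz (by omega)] at hi1
      exact hgap i (by omega) (by omega)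
    refine hF κ D O hD hO hD0 hO0 hsq k s hk ho (by omega) ?_
    intro c hc
    have h2 := hDD κ k s P jj c (by omega) (by omega) (by omega) (by omega) hc _ hrel
    obtain ⟨v, hv0, hv⟩ := hA5 κ k _ (monic_prod_root _) (natDegree_prod_root _) _ h2
    exact ⟨v, hv0, by rw [← hf]; exact hv⟩

/-- No transversal and `A` is not a coset: the reduction of `B` is a square. -/
theorem square_of_not_coset (hA5 : ST_A5) (hC : ST_C) (hDD : ST_D) (hE : ST_E) (hF : ST_F)
    (hG : ST_G) {κ : Type} [Field κ] [CharP κ 2] [IsAlgClosed κ]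
    (φ : integralClosure ℤ ℂ →+* κ)
    (hφ : ∀ (k b : ℕ) (u : Fin k → ℕ)
      (x : Fin k → integralClosure ℤ ℂ) (_ : Function.Injective x)
      (_ : ∀ σ : Equiv.Perm (Fin k), W b (fun i => ((x (σ i) : integralClosure ℤ ℂ) : ℂ)) u = 0),
        Rel (∏ i, (X - C (φ (x i)))) b u)
    {A B : Finset (ZMod n)} (h : ¬ Tr A B) (a b : Fin k → ZMod n)
    (ha : Function.Injective a) (hb : Function.Injective b) (hA : univ.image a = A)
    (hB : univ.image b = B) (hcos : ¬ IsCos k A) :
    ∃ D : κ[X], D.Monic ∧ D.eval 0 ≠ 0 ∧ k = 2 * D.natDegree ∧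
      ∏ i, (X - C (φ (ichi (b i)))) = D ^ 2 := by
  obtain ⟨D, O, hD, hO, hD0, hO0, hsq, hf⟩ := hG κ k (fun i => φ (ichi (b i)))
    (fun i => map_ichi_ne_zero φ (b i))
  have hk : k = 2 * D.natDegree + O.natDegree := by
    have h1 := natDegree_prod_root (fun i => φ (ichi (b i)))
    rw [hf, Monic.natDegree_mul (hD.pow 2) hO, hD.natDegree_pow] at h1
    omega
  rcases Nat.eq_zero_or_pos O.natDegree with ho | ho
  · have hO1 : O = 1 := eq_one_of_monic_natDegree_zero hO ho
    refine ⟨D, hD, hD0, by omega, ?_⟩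
    rw [hf, hO1, mul_one]
  · exact absurd (coset_of_odd_type hA5 hC hDD hE hF φ hφ h a b ha hb hA hB D O hD hO hD0 hO0
      hsq hf ho) hcos

/-- **Odd size**: there is always a transversal. -/
theorem tr_of_odd (hA5 : ST_A5) (hB' : ST_B) (hC : ST_C) (hDD : ST_D) (hE : ST_E) (hF : ST_F)
    (hG : ST_G) {A B : Finset (ZMod n)} (hAB : A.card = B.card) (hodd : Odd A.card) :
    Tr A B := by
  by_contra h
  have h' : ¬ Tr B A := fun h1 => h h1.symm
  obtain ⟨κ, i1, i2, i3, φ, hφ⟩ := hB'
  obtain ⟨a, ha, hA⟩ := Pool.Agent.Helper73.SNC.exists_list A rfl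
  obtain ⟨b, hb, hB⟩ := Pool.Agent.Helper73.SNC.exists_list (k := A.card) B hAB.symm
  have key : ∀ (A' B' : Finset (ZMod n)) (a' b' : Fin A.card → ZMod n), ¬ Tr A' B' →
      Function.Injective a' → Function.Injective b' → univ.image a' = A' →
      univ.image b' = B' → IsCos A.card A' := by
    intro A' B' a' b' h1 h2 h3 h4 h5
    obtain ⟨D, O, hD, hO, hD0, hO0, hsq, hf⟩ := hG κ A.card (fun i => φ (ichi (b' i)))
      (fun i => map_ichi_ne_zero φ (b' i))
    have hk : A.card = 2 * D.natDegree + O.natDegree := by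
      have h1 := natDegree_prod_root (fun i => φ (ichi (b' i)))
      rw [hf, Monic.natDegree_mul (hD.pow 2) hO, hD.natDegree_pow] at h1
      omega
    have ho : 1 ≤ O.natDegree := by
      obtain ⟨q, hq⟩ := hodd
      omega
    exact coset_of_odd_type hA5 hC hDD hE hF φ hφ h1 a' b' h2 h3 h4 h5 D O hD hO hD0 hO0 hsq hf ho
  have hcA := key A B a b h ha hb hA hB
  have hcB := key B A b a h' hb ha hB hA
  exact h (Pool.Agent.Helper73.SNC.tr_of_isCos hodd hcA hcB)

end Main

end Pool.Agent.Helper7.CYC
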