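import Mathlib
import Pool.Agent.Helper7.SN.Base

/-!
Cosets of a subgroup of even order of a cyclic group have no transversal.
-/

set_option autoImplicit false

open Finset

namespace Pool.Agent.Helper7.CYC

variable {n : ℕ} [NeZero n]

/-- The sum of the elements of a subgroup of even order of `ZMod n` is not zero. -/
lemma sum_ne_zero (H : AddSubgroup (ZMod n)) (hH : Even (Nat.card H))
    (S : Finset (ZMod n)) (hS : ∀ x, x ∈ S ↔ x ∈ H) : ∑ x ∈ S, x ≠ 0 := by
  classical
  have hfin : Finite H := inferInstance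
  -- an element of order two
  obtain ⟨t, ht⟩ := exists_prime_addOrderOf_dvd_card' (G := H) 2 hH.two_dvd
  have ht2 : (2 : ℕ) • (t : ZMod n) = 0 := by
    have h := addOrderOf_nsmul_eq_zero t
    rw [ht] at h
    have h2 := congrArg (fun z : H => (z : ZMod n)) h
    simpa using h2
  have ht0 : (t : ZMod n) ≠ 0 := by
    intro h
    have h1 : t = 0 := Subtype.ext h
    rw [h1, addOrderOf_zero] at ht
    omega
  -- uniqueness of the involution
  have huniq : ∀ x : ZMod n, x + x = 0 → x ≠ 0 → x = t := by
    intro x hx hx0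
    have key : ∀ y : ZMod n, y + y = 0 → y ≠ 0 → 2 * y.val = n := by
      intro y hy hy0
      have h1 : ((y.val + y.val : ℕ) : ZMod n) = 0 := by
        rw [Nat.cast_add, ZMod.natCast_zmod_val]
        exact hy
      rw [ZMod.natCast_eq_zero_iff] at h1
      have h2 : 0 < y.val := by
        rcases Nat.eq_zero_or_pos y.val with h | h
        · exact absurd ((ZMod.val_eq_zero y).1 h) hy0
        · exact h
      have h3 : y.val < n := ZMod.val_lt y
      obtain ⟨c, hc⟩ := h1
      have hc1 : c = 1 := by
        rcases c with _ | _ | c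
        · omega
        · rfl
        · exfalso
          have : n * (c + 2) = n * c + 2 * n := by ring
          rw [this] at hc
          have : 0 ≤ n * c := Nat.zero_le _
          omega
      rw [hc1] at hc
      omega
    have h1 := key x hx hx0
    have h2 := key t (by rw [← two_nsmul]; exact ht2) ht0
    apply ZMod.val_injective n
    omega
  have htS : (t : ZMod n) ∈ S := (hS _).2 t.2
  have h0 : ∑ x ∈ S.erase (t : ZMod n), x = 0 := by
    refine Finset.sum_involution (fun x _ => -x) ?_ ?_ ?_ ?_
    · intro x _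
      exact add_neg_cancel x
    · intro x hx hx0 hxx
      rw [Finset.mem_erase] at hx
      exact hx.1 (huniq x (by
        have : x + -x = 0 := add_neg_cancel x
        rw [hxx] at this
        exact this) hx0)
    · intro x hx
      rw [Finset.mem_erase] at hx ⊢
      refine ⟨?_, (hS _).2 (H.neg_mem ((hS _).1 hx.2))⟩
      intro h
      apply hx.1
      have h3 : x = -(t : ZMod n) := by rw [← h, neg_neg]
      rw [h3, neg_eq_iff_add_eq_zero, ← two_nsmul]
      exact ht2
    · intro x _
      exact neg_neg x
  rw [← Finset.add_sum_erase S (fun x => x) htS, h0, add_zero]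
  exact ht0

/-- Cosets of one subgroup of even order have no transversal. -/
theorem no_tr_of_cosPair {A B : Finset (ZMod n)}
    (h : ∃ H : AddSubgroup (ZMod n), Even (Nat.card H) ∧ ∃ a b : ZMod n,
      (∀ x : ZMod n, x ∈ A ↔ x - a ∈ H) ∧ (∀ x : ZMod n, x ∈ B ↔ x - b ∈ H)) :
    ¬ ∃ f : ZMod n → ZMod n,
      Set.BijOn f (A : Set (ZMod n)) (B : Set (ZMod n)) ∧
      Set.InjOn (fun a => a + f a) (A : Set (ZMod n)) := by
  classical
  rintro ⟨f, hf, hinj⟩
  obtain ⟨H, hH, a, b, hA, hB⟩ := h
  set S : Finset (ZMod n) := univ.filter (fun x => x ∈ H) with hSdef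
  have hS : ∀ x, x ∈ S ↔ x ∈ H := fun x => by simp [hSdef]
  have hAS : A = S.image (fun x => x + a) := by
    ext x
    rw [hA, Finset.mem_image]
    constructor
    · intro hx
      exact ⟨x - a, (hS _).2 hx, by ring⟩
    · rintro ⟨y, hy, rfl⟩
      have := (hS _).1 hy
      simpa using this
  have hBS : B = S.image (fun x => x + b) := by
    ext x
    rw [hB, Finset.mem_image]
    constructor
    · intro hx
      exact ⟨x - b, (hS _).2 hx, by ring⟩
    · rintro ⟨y, hy, rfl⟩
      have := (hS _).1 hy
      simpa using this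
  have hfm : ∀ x ∈ A, f x ∈ B := fun x hx => hf.mapsTo (Finset.mem_coe.2 hx)
  -- the sums fill the coset a + b + H
  have hCS : A.image (fun x => x + f x) = S.image (fun x => x + (a + b)) := by
    apply Finset.eq_of_subset_of_card_le
    · intro y hy
      rw [Finset.mem_image] at hy ⊢
      obtain ⟨x, hx, rfl⟩ := hy
      have h1 := (hA x).1 hx
      have h2 := (hB _).1 (hfm x hx)
      refine ⟨x - a + (f x - b), (hS _).2 (H.add_mem h1 h2), by ring⟩
    · rw [Finset.card_image_of_injOn hinj, hAS,
        Finset.card_image_of_injective _ (add_left_injective a),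
        Finset.card_image_of_injective _ (add_left_injective (a + b))]
  have h1 : ∑ y ∈ A.image (fun x => x + f x), y = ∑ x ∈ A, x + ∑ x ∈ A, f x := by
    rw [Finset.sum_image hinj, Finset.sum_add_distrib]
  have h2 : ∑ x ∈ A, f x = ∑ y ∈ B, y := by
    refine Finset.sum_bij (fun x _ => f x) hfm ?_ ?_ ?_
    · intro x hx y hy hxy
      exact hf.injOn (Finset.mem_coe.2 hx) (Finset.mem_coe.2 hy) hxy
    · intro y hy
      obtain ⟨x, hx, hxy⟩ := hf.surjOn (Finset.mem_coe.2 hy)
      exact ⟨x, Finset.mem_coe.1 hx, hxy⟩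
    · intro x _
      rfl
  have hsum : ∀ c : ZMod n, ∑ y ∈ S.image (fun x => x + c), y
      = ∑ x ∈ S, x + S.card • c := by
    intro c
    rw [Finset.sum_image (fun x _ y _ h => add_left_injective c h), Finset.sum_add_distrib,
      Finset.sum_const]
  have h3 : ∑ x ∈ A, x = ∑ x ∈ S, x + S.card • a := by rw [hAS]; exact hsum a
  have h4 : ∑ x ∈ B, x = ∑ x ∈ S, x + S.card • b := by rw [hBS]; exact hsum b
  have h5 := hsum (a + b)
  rw [← hCS, h1, h2, h3, h4, nsmul_add] at h5
  apply sum_ne_zero H hH S hS
  have h6 : ∑ x ∈ S, x + S.card • a + (∑ x ∈ S, x + S.card • b)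
      = (∑ x ∈ S, x + (S.card • a + S.card • b)) + ∑ x ∈ S, x := by abel
  rw [h6] at h5
  exact add_eq_left.1 h5

end Pool.Agent.Helper7.CYC
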