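import Mathlib
import Pool.Agent.Helper7.CYC.Conv

/-!
The pairs without transversal in a cyclic group of any order, from the even case.
-/

set_option autoImplicit false

open Finset

namespace Pool.Agent.Helper7.CYC

/-- Doubling, from `ZMod n` to `ZMod (2 * n)`. -/
noncomputable def dbl (n : ℕ) : ZMod n →+ ZMod (2 * n) :=
  ZMod.lift n ⟨(zmultiplesHom (ZMod (2 * n))) 2, by
    have h : ((2 * n : ℕ) : ZMod (2 * n)) = 0 := ZMod.natCast_self _
    rw [zmultiplesHom_apply]
    rw [Nat.cast_mul] at h
    have h2 : ((n : ℤ) • (2 : ZMod (2 * n))) = (2 : ZMod (2 * n)) * n := by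
      rw [zsmul_eq_mul]
      push_cast
      ring
    rw [h2]
    push_cast at h
    exact h⟩

lemma dbl_natCast (n x : ℕ) : dbl n (x : ZMod n) = ((2 * x : ℕ) : ZMod (2 * n)) := by
  have h : dbl n ((x : ℤ) : ZMod n) = (zmultiplesHom (ZMod (2 * n))) 2 (x : ℤ) :=
    ZMod.lift_coe n _ (x : ℤ)
  rw [Int.cast_natCast] at h
  rw [h, zmultiplesHom_apply, zsmul_eq_mul]
  push_cast
  ring

variable {n : ℕ} [NeZero n]

lemma dbl_apply (x : ZMod n) : dbl n x = ((2 * x.val : ℕ) : ZMod (2 * n)) := by
  have h := dbl_natCast n x.val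
  rwa [ZMod.natCast_zmod_val] at h

lemma dbl_injective : Function.Injective (dbl n) := by
  intro x y h
  rw [dbl_apply, dbl_apply] at h
  apply ZMod.val_injective n
  have h1 := (ZMod.natCast_eq_natCast_iff' _ _ _).1 h
  have h2 := ZMod.val_lt x
  have h3 := ZMod.val_lt y
  rw [Nat.mod_eq_of_lt (by omega), Nat.mod_eq_of_lt (by omega)] at h1
  omega

/-- For odd `n` no two doubles differ by `n`. -/
lemma dbl_sub_ne (hn : Odd n) (x y : ZMod n) :
    dbl n x - dbl n y ≠ ((n : ℕ) : ZMod (2 * n)) := by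
  intro h
  rw [sub_eq_iff_eq_add, dbl_apply, dbl_apply, ← Nat.cast_add] at h
  have h1 := (ZMod.natCast_eq_natCast_iff' _ _ _).1 h
  have h2 : (2 * x.val) % (2 * n) % 2 = (n + 2 * y.val) % (2 * n) % 2 := by rw [h1]
  rw [Nat.mod_mul_right_mod, Nat.mod_mul_right_mod] at h2
  obtain ⟨c, hc⟩ := hn
  omega

/-- A subgroup of even order of `ZMod (2 * n)` contains `n`. -/
lemma mem_of_even (H : AddSubgroup (ZMod (2 * n))) (hH : Even (Nat.card H)) :
    ((n : ℕ) : ZMod (2 * n)) ∈ H := by
  have hn : 0 < n := Nat.pos_of_ne_zero (NeZero.ne n)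
  have h2n : NeZero (2 * n) := ⟨by omega⟩
  have hfin : Finite H := inferInstance
  obtain ⟨t, ht⟩ := exists_prime_addOrderOf_dvd_card' (G := H) 2 hH.two_dvd
  have ht2 : (2 : ℕ) • (t : ZMod (2 * n)) = 0 := by
    have h := addOrderOf_nsmul_eq_zero t
    rw [ht] at h
    have h2 := congrArg (fun z : H => (z : ZMod (2 * n))) h
    simpa using h2
  have ht0 : (t : ZMod (2 * n)) ≠ 0 := by
    intro h
    have h1 : t = 0 := Subtype.ext h
    rw [h1, addOrderOf_zero] at ht
    omega
  have h1 : ((2 * (t : ZMod (2 * n)).val : ℕ) : ZMod (2 * n)) = 0 := by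
    rw [Nat.cast_mul, ZMod.natCast_zmod_val]
    rw [nsmul_eq_mul] at ht2
    exact ht2
  rw [ZMod.natCast_eq_zero_iff] at h1
  have h3 : (t : ZMod (2 * n)).val < 2 * n := ZMod.val_lt _
  have h4 : 0 < (t : ZMod (2 * n)).val := by
    rcases Nat.eq_zero_or_pos (t : ZMod (2 * n)).val with h | h
    · exact absurd ((ZMod.val_eq_zero _).1 h) ht0
    · exact h
  have h5 : n ∣ (t : ZMod (2 * n)).val := Nat.dvd_of_mul_dvd_mul_left (by norm_num) h1
  obtain ⟨c, hc⟩ := h5
  have hc1 : c = 1 := by
    rcases c with _ | _ | c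
    · omega
    · rfl
    · exfalso
      have h6 : n * (c + 1 + 1) = n * c + 2 * n := by ring
      have h7 : 0 ≤ n * c := Nat.zero_le _
      omega
  rw [hc1, mul_one] at hc
  have h7 : (((t : ZMod (2 * n)).val : ℕ) : ZMod (2 * n)) = ((n : ℕ) : ZMod (2 * n)) :=
    congrArg (fun z : ℕ => (z : ZMod (2 * n))) hc
  rw [ZMod.natCast_zmod_val] at h7
  rw [← h7]
  exact t.2

/-- The pairs without transversal in `ZMod n`, `n` any positive integer, from the even case. -/
theorem iff_of_main
    (main : ∀ n : ℕ, 0 < n → Even n →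
      ∀ A B : Finset (ZMod n), A.card = B.card →
        (¬ ∃ f : ZMod n → ZMod n,
            Set.BijOn f (A : Set (ZMod n)) (B : Set (ZMod n)) ∧
            Set.InjOn (fun a => a + f a) (A : Set (ZMod n))) →
        ∃ H : AddSubgroup (ZMod n), Even (Nat.card H) ∧
          ∃ a b : ZMod n,
            (∀ x : ZMod n, x ∈ A ↔ x - a ∈ H) ∧
            (∀ x : ZMod n, x ∈ B ↔ x - b ∈ H))
    (n : ℕ) (hn : 0 < n) (A B : Finset (ZMod n)) (hc : A.card = B.card) :
    (¬ ∃ f : ZMod n → ZMod n,
        Set.BijOn f (A : Set (ZMod n)) (B : Set (ZMod n)) ∧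
        Set.InjOn (fun a => a + f a) (A : Set (ZMod n))) ↔
    ∃ H : AddSubgroup (ZMod n), Even (Nat.card H) ∧
      ∃ a b : ZMod n,
        (∀ x : ZMod n, x ∈ A ↔ x - a ∈ H) ∧
        (∀ x : ZMod n, x ∈ B ↔ x - b ∈ H) := by
  classical
  have hn0 : NeZero n := ⟨hn.ne'⟩
  constructor
  · intro hno
    rcases Nat.even_or_odd n with he | ho
    · exact main n hn he A B hc hno
    · exfalso
      have hinj := dbl_injective (n := n)
      obtain ⟨H, hH, a, b, hA, hB⟩ := main (2 * n) (by omega) (even_two_mul n)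
        (A.image (dbl n)) (B.image (dbl n))
        (by rw [card_image_of_injective _ hinj, card_image_of_injective _ hinj, hc]) (by
          rintro ⟨g, hg, hgi⟩
          apply hno
          have hex : ∀ x ∈ A, ∃ y ∈ B, dbl n y = g (dbl n x) := by
            intro x hx
            have h1 := hg.mapsTo (Finset.mem_coe.2 (mem_image_of_mem (dbl n) hx))
            rw [Finset.mem_coe, mem_image] at h1
            exact h1
          choose! f hf1 hf2 using hex
          refine ⟨f, ⟨?_, ?_, ?_⟩, ?_⟩
          · intro x hx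
            exact hf1 x hx
          · intro x hx y hy hxy
            have h1 := hf2 x hx
            have h2 := hf2 y hy
            rw [hxy, h2] at h1
            have h3 := hg.injOn (Finset.mem_coe.2 (mem_image_of_mem (dbl n) hy))
              (Finset.mem_coe.2 (mem_image_of_mem (dbl n) hx)) h1
            exact (hinj h3).symm
          · intro y hy
            obtain ⟨z, hz, hzy⟩ := hg.surjOn (Finset.mem_coe.2 (mem_image_of_mem (dbl n) hy))
            rw [Finset.mem_coe, mem_image] at hz
            obtain ⟨x, hx, rfl⟩ := hz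
            refine ⟨x, hx, ?_⟩
            apply hinj
            rw [hf2 x hx, hzy]
          · intro x hx y hy hxy
            have hxy' : x + f x = y + f y := hxy
            have h1 := congrArg (dbl n) hxy'
            rw [map_add, map_add, hf2 x hx, hf2 y hy] at h1
            exact hinj (hgi (Finset.mem_coe.2 (mem_image_of_mem (dbl n) hx))
              (Finset.mem_coe.2 (mem_image_of_mem (dbl n) hy)) h1))
      have ha : a ∈ A.image (dbl n) := (hA a).2 (by rw [sub_self]; exact H.zero_mem)
      have ha2 : a + ((n : ℕ) : ZMod (2 * n)) ∈ A.image (dbl n) := (hA _).2 (by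
        rw [add_sub_cancel_left]
        exact mem_of_even H hH)
      rw [mem_image] at ha ha2
      obtain ⟨x, _, hx⟩ := ha
      obtain ⟨y, _, hy⟩ := ha2
      exact dbl_sub_ne ho y x (by rw [hx, hy, add_sub_cancel_left])
  · intro h
    exact no_tr_of_cosPair h

end Pool.Agent.Helper7.CYC
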